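import Pool.Agent.Helper99.BK.Stmts

set_option autoImplicit false

namespace Pool.Helper99.BK

open NumberField

private theorem cml_two {f : Fin 3 → ℝ} (hf : ∀ i, 0 ≤ f i) {b c : Fin 3} (h : b ≠ c) :
    f b + f c ≤ ∑ i, f i := by
  classical
  calc f b + f c = ∑ i ∈ ({b, c} : Finset (Fin 3)), f i := (Finset.sum_pair h).symm
    _ ≤ ∑ i, f i := Finset.sum_le_univ_sum_of_nonneg hf

private theorem cml_bound {a b c d H s x y : ℝ} (hH : 3 ≤ H) (hb : 0 < b) (hc : 0 < c) (hd : 0 < d)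
    (ha : a ≤ 4 * H) (ha0 : 0 ≤ a) (hb1 : 1 ≤ 16 * H ^ 4 * b) (hx : |Real.log c| = x)
    (hy : |Real.log d| = y) (hs : x + y ≤ s) : a / b * (c / d) ≤ 64 * H ^ 5 * Real.exp s := by
  have h1 : a / b ≤ 64 * H ^ 5 := by
    rw [div_le_iff₀ hb]
    have h2 : 4 * H * 1 ≤ 4 * H * (16 * H ^ 4 * b) := mul_le_mul_of_nonneg_left hb1 (by linarith)
    calc a ≤ 4 * H * 1 := by linarith
      _ ≤ 4 * H * (16 * H ^ 4 * b) := h2
      _ = 64 * H ^ 5 * b := by ring
  have h2 : c / d ≤ Real.exp s := by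
    rw [← Real.exp_log (div_pos hc hd), Real.exp_le_exp, Real.log_div hc.ne' hd.ne']
    have h3 := le_abs_self (Real.log c)
    have h4 := neg_abs_le (Real.log d)
    rw [hx] at h3
    rw [hy] at h4
    linarith
  exact mul_le_mul h1 h2 (by positivity) (by positivity)

theorem st_CMl (hLF : ST_LF) (hLIOU : ST_LIOU) (_hEMB3 : ST_EMB3) : ST_CMl := by
  intro K _ _ hK σ hσ π hπ α n0 H hH hN hA G hG hG1
  obtain ⟨L, hfd, hD, hmem, hperm⟩ := hLF K hK σ hσ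
  haveI : NumberField L := { to_charZero := inferInstance, to_finiteDimensional := hfd }
  -- elements
  obtain ⟨s, hs⟩ : ∃ s : Fin 3 → K → L, ∀ i x, ((s i x : L) : ℂ) = σ i x :=
    ⟨fun i x => ⟨σ i x, hmem i x⟩, fun i x => rfl⟩
  have hsub : ∀ x y : L, (x : ℂ) = (y : ℂ) → x = y := fun x y h => Subtype.ext h
  obtain ⟨g, hg⟩ : ∃ g : L, g = (s 0 α - s 1 α) / (s 0 α - s 2 α) * (s 1 (π : K) / s 2 (π : K)) :=
    ⟨_, rfl⟩
  have hgG : ((g : L) : ℂ) = G := by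
    rw [hg, hG, ← hs, ← hs, ← hs, ← hs, ← hs]
    rfl
  have hz0 : g - 1 ≠ 0 := by
    intro h
    apply hG1
    have h1 : g = 1 := sub_eq_zero.1 h
    rw [← hgG, h1]
    rfl
  have hπK : (π : K) ≠ 0 := by
    intro h
    exact hπ (RingOfIntegers.coe_eq_zero_iff.1 h)
  have hNpos : 0 < (Algebra.norm ℤ π).natAbs := by
    rw [Int.natAbs_pos]
    exact Algebra.norm_ne_zero_iff.2 hπ
  obtain ⟨q, hq⟩ : ∃ q : ℕ, q = n0 * (Algebra.norm ℤ π).natAbs := ⟨_, rfl⟩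
  have hqpos : 0 < q := by
    rw [hq]
    exact Nat.mul_pos hA.pos hNpos
  -- the integrality
  have hdvd : π ∣ (((Algebra.norm ℤ π).natAbs : ℕ) : 𝓞 K) := by
    have h1 := Ideal.absNorm_mem (Ideal.span {π})
    rw [Ideal.absNorm_span_singleton] at h1
    exact Ideal.mem_span_singleton.1 h1
  obtain ⟨π', hπ'⟩ := hdvd
  have hσ2 : σ 2 (π : K) ≠ 0 := (map_ne_zero (σ 2)).2 hπK
  have hN2 : (((Algebra.norm ℤ π).natAbs : ℕ) : ℂ) = σ 2 (π : K) * σ 2 (π' : K) := by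
    have h1 : ((((Algebra.norm ℤ π).natAbs : ℕ) : 𝓞 K) : K) = (π : K) * (π' : K) := by
      rw [hπ']
      rfl
    have h2 := congrArg (σ 2) h1
    rw [map_mul] at h2
    rw [← h2]
    simp
  have hint : IsIntegral ℤ ((q : ℂ) * (G - 1)) := by
    have e : (q : ℂ) * (G - 1) = ((n0 : ℂ) * ((σ 0 α - σ 1 α) / (σ 0 α - σ 2 α))) *
        (σ 1 (π : K) * σ 2 (π' : K)) - (q : ℂ) := by
      rw [hq, hG, Nat.cast_mul, hN2]
      field_simp
    rw [e]
    have h1 := hA.int 0 1 2 (by decide) (by decide) (by decide)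
    have h2 : IsIntegral ℤ (σ 1 (π : K)) := map_isIntegral_int (σ 1) (RingOfIntegers.isIntegral_coe π)
    have h3 : IsIntegral ℤ (σ 2 (π' : K)) :=
      map_isIntegral_int (σ 2) (RingOfIntegers.isIntegral_coe π')
    exact (h1.mul (h2.mul h3)).sub (isIntegral_algebraMap (R := ℤ) (x := (q : ℤ)))
  have hintL : IsIntegral ℤ ((q : L) * (g - 1)) := by
    have hinj : Function.Injective ((L.val : L →ₐ[ℚ] ℂ).toRingHom.toIntAlgHom) := by
      intro x y h
      exact hsub x y h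
    rw [← isIntegral_algHom_iff ((L.val : L →ₐ[ℚ] ℂ).toRingHom.toIntAlgHom) hinj]
    have e : ((L.val : L →ₐ[ℚ] ℂ).toRingHom.toIntAlgHom) ((q : L) * (g - 1)) =
        (q : ℂ) * (G - 1) := by
      rw [map_mul, map_sub, map_natCast, map_one, ← hgG]
      rfl
    rw [e]
    exact hint
  -- conjugates
  obtain ⟨S, hS⟩ : ∃ S : ℝ, S = ∑ i, |Real.log ‖σ i (π : K)‖| := ⟨_, rfl⟩
  have hS0 : 0 ≤ S := by
    rw [hS]
    exact Finset.sum_nonneg fun i _ => abs_nonneg _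
  have hM1 : 1 ≤ 65 * H ^ 5 * Real.exp S := by
    have h1 : 1 ≤ H ^ 5 := one_le_pow₀ (by linarith)
    have h2 : 1 ≤ Real.exp S := Real.one_le_exp hS0
    have h3 : (1 : ℝ) * 1 ≤ 65 * H ^ 5 * Real.exp S :=
      mul_le_mul (by linarith) h2 zero_le_one (by positivity)
    linarith
  have hconj : ∀ τ : L →+* ℂ, ‖τ (g - 1)‖ ≤ 65 * H ^ 5 * Real.exp S := by
    intro τ
    choose ρ hρ using hperm τ
    have hρs : ∀ i x, τ (s i x) = σ (ρ i) x := by
      intro i x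
      rw [← hρ i x (hmem i x)]
      congr 1
      exact hsub _ _ (hs i x)
    have hρinj : ∀ i j, i ≠ j → ρ i ≠ ρ j := by
      intro i j hij h
      apply hij
      apply hσ
      ext x
      have h1 : τ (s i x) = τ (s j x) := by rw [hρs, hρs, h]
      have h2 : s i x = s j x := τ.injective h1
      rw [← hs, ← hs, h2]
    have hτg : τ g = (σ (ρ 0) α - σ (ρ 1) α) / (σ (ρ 0) α - σ (ρ 2) α) *
        (σ (ρ 1) (π : K) / σ (ρ 2) (π : K)) := by
      rw [hg, map_mul, map_div₀, map_div₀, map_sub, map_sub, hρs, hρs, hρs, hρs, hρs]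
    have n01 : ρ 0 ≠ ρ 1 := hρinj 0 1 (by decide)
    have n02 : ρ 0 ≠ ρ 2 := hρinj 0 2 (by decide)
    have n12 : ρ 1 ≠ ρ 2 := hρinj 1 2 (by decide)
    have hb : 0 < ‖σ (ρ 0) α - σ (ρ 2) α‖ := by
      have h1 := (hA.sep _ _ n02).2
      by_contra h2
      have h3 : ‖σ (ρ 0) α - σ (ρ 2) α‖ = 0 := le_antisymm (not_lt.1 h2) (norm_nonneg _)
      rw [h3, mul_zero] at h1
      linarith
    have hpos : ∀ i, 0 < ‖σ i (π : K)‖ := fun i => norm_pos_iff.2 ((map_ne_zero (σ i)).2 hπK)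
    have hbd := cml_bound (s := S) hH hb (hpos (ρ 1)) (hpos (ρ 2)) (hA.sep _ _ n01).1 (norm_nonneg _)
      (hA.sep _ _ n02).2 rfl rfl (by
        rw [hS]
        exact cml_two (f := fun i => |Real.log ‖σ i (π : K)‖|) (fun i => abs_nonneg _) n12)
    have h5 : ‖τ g‖ ≤ 64 * H ^ 5 * Real.exp S := by
      rw [hτg, norm_mul, norm_div, norm_div]
      exact hbd
    have h6 : 1 ≤ H ^ 5 * Real.exp S := by
      have h1 : 1 ≤ H ^ 5 := one_le_pow₀ (by linarith)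
      have h2 : 1 ≤ Real.exp S := Real.one_le_exp hS0
      have h3 : (1 : ℝ) * 1 ≤ H ^ 5 * Real.exp S := mul_le_mul h1 h2 zero_le_one (by positivity)
      linarith
    rw [map_sub, map_one]
    calc ‖τ g - 1‖ ≤ ‖τ g‖ + ‖(1 : ℂ)‖ := norm_sub_le _ _
      _ ≤ 64 * H ^ 5 * Real.exp S + 1 := by rw [norm_one]; linarith
      _ ≤ 65 * H ^ 5 * Real.exp S := by linarith
  have hmain := hLIOU L (L.val : L →ₐ[ℚ] ℂ).toRingHom (g - 1) hz0 q hqpos hintL
    (65 * H ^ 5 * Real.exp S) hM1 hconj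
  have hφ : (L.val : L →ₐ[ℚ] ℂ).toRingHom (g - 1) = G - 1 := by
    rw [← hgG]
    rfl
  rw [hφ] at hmain
  have hD' : Module.finrank ℚ L ≤ 27 := hD
  obtain ⟨D, hDD⟩ : ∃ D : ℕ, D = Module.finrank ℚ L := ⟨_, rfl⟩
  rw [← hDD] at hmain hD'
  -- logarithms
  have hGn : 0 < ‖G - 1‖ := norm_pos_iff.2 (sub_ne_zero.2 hG1)
  have hqr : (1 : ℝ) ≤ (q : ℝ) := by exact_mod_cast hqpos
  have hlogH : 1 ≤ Real.log H := by
    rw [Real.le_log_iff_exp_le (by linarith)]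
    linarith [Real.exp_one_lt_d9]
  have hlq : Real.log q ≤ 11 * Real.log H := by
    have h1 : (q : ℝ) ≤ 54 * H ^ 7 := by
      rw [hq, Nat.cast_mul]
      have h2 : (((Algebra.norm ℤ π).natAbs : ℕ) : ℝ) = |(Algebra.norm ℤ π : ℝ)| := by
        rw [Nat.cast_natAbs, Int.cast_abs]
      rw [h2]
      calc (n0 : ℝ) * |(Algebra.norm ℤ π : ℝ)| ≤ (54 * H ^ 6) * H :=
            mul_le_mul hA.le hN (abs_nonneg _) (by positivity)
        _ = 54 * H ^ 7 := by ring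
    have h3 : (54 : ℝ) ≤ H ^ 4 := by
      calc (54 : ℝ) ≤ 3 ^ 4 := by norm_num
        _ ≤ H ^ 4 := pow_le_pow_left₀ (by norm_num) hH 4
    have h4 : (q : ℝ) ≤ H ^ 11 := by
      calc (q : ℝ) ≤ 54 * H ^ 7 := h1
        _ ≤ H ^ 4 * H ^ 7 := mul_le_mul_of_nonneg_right h3 (by positivity)
        _ = H ^ 11 := by ring
    calc Real.log q ≤ Real.log (H ^ 11) := Real.log_le_log (by linarith) h4
      _ = 11 * Real.log H := by rw [Real.log_pow]; norm_num
  have hlM : Real.log (65 * H ^ 5 * Real.exp S) ≤ 9 * Real.log H + S := by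
    rw [Real.log_mul (by positivity) (Real.exp_pos _).ne', Real.log_exp]
    have h3 : (65 : ℝ) ≤ H ^ 4 := by
      calc (65 : ℝ) ≤ 3 ^ 4 := by norm_num
        _ ≤ H ^ 4 := pow_le_pow_left₀ (by norm_num) hH 4
    have h4 : 65 * H ^ 5 ≤ H ^ 9 := by
      calc 65 * H ^ 5 ≤ H ^ 4 * H ^ 5 := mul_le_mul_of_nonneg_right h3 (by positivity)
        _ = H ^ 9 := by ring
    have h5 : Real.log (65 * H ^ 5) ≤ Real.log (H ^ 9) := Real.log_le_log (by positivity) h4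
    rw [Real.log_pow] at h5
    push_cast at h5
    linarith
  have hlM0 : 0 ≤ Real.log (65 * H ^ 5 * Real.exp S) := Real.log_nonneg hM1
  have hlq0 : 0 ≤ Real.log q := Real.log_nonneg hqr
  have hMpos : 0 < 65 * H ^ 5 * Real.exp S := by positivity
  have hqpos' : (0 : ℝ) < (q : ℝ) := by linarith
  have hlog := Real.log_nonneg hmain
  rw [Real.log_mul hGn.ne' (by positivity), Real.log_mul (by positivity) (by positivity),
    Real.log_pow, Real.log_pow] at hlog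
  have hDr : (D : ℝ) ≤ 27 := by exact_mod_cast hD'
  have hDr' : (((D - 1 : ℕ)) : ℝ) ≤ 27 := by
    have : D - 1 ≤ 27 := by omega
    exact_mod_cast this
  have h7 : (D : ℝ) * Real.log q ≤ 27 * (11 * Real.log H) :=
    mul_le_mul hDr hlq hlq0 (by norm_num)
  have h8 : ((D - 1 : ℕ) : ℝ) * Real.log (65 * H ^ 5 * Real.exp S) ≤ 27 * (9 * Real.log H + S) :=
    mul_le_mul hDr' hlM hlM0 (by norm_num)
  rw [← hS]
  linarith

end Pool.Helper99.BK
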